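import Pool.Agent.TH513.PT.Growth
import Pool.Agent.H112R2.Main
set_option autoImplicit false

/-! The Bohr set attached to a near-minimising pair of constant slope. -/

namespace Pool.Agent.TH513.PT

open Finset H112
open scoped Pointwise

variable {G : Type*} [AddCommGroup G]

theorem core_slope [AddGroup.FG G] [DecidableEq G] {K : ℝ} {A : Finset G} (hA : A.Nonempty)
    (hK : ((A + A).card : ℝ) ≤ K * A.card) (hK1 : 1 ≤ K) {s : ℕ} (hs : 1 ≤ s) (j : ℕ)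
    {κ b D ε ρ₀ : ℝ}
    (hκ : κ = Real.log (2 * K))
    (hb : 2 * κ * ((2 * j + 1 : ℕ) + 1) * (1 + 1 / (s : ℝ)) ^ (2 * j + 1) ≤ b)
    (hD : D = 2 * s * κ)
    (hε : 2 * κ * ((j + 1 : ℕ) + 1) * (1 + 1 / (s : ℝ)) ^ (j + 1) ≤ 2 ^ j * ε)
    (hρ : 4 * Real.sqrt ε ≤ ρ₀)
    (h4 : (1 / 4 : ℝ) ^ (2 ^ j) ≤ Real.exp (-(2 * b + 2 * Real.log K + 2 * D)) / 4) :
    ∃ (S : Set (G →+ UnitAddCircle)) (X : Finset G),
      (bohr S (1 / 6)).Finite ∧
      ((bohr S (1 / 6)).ncard : ℝ) ≤ (8 * Real.exp (2 * b + 2 * Real.log K + 2 * D)) * A.card ∧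
      (∀ a ∈ A, ∃ x ∈ X, a - x ∈ bohr S ρ₀) ∧
      (X.card : ℝ) ≤ K * Real.exp (2 * D + 1) := by
  classical
  have hκ0 : 0 ≤ κ := by
    rw [hκ]; exact Real.log_nonneg (by linarith)
  obtain ⟨p₁, p₂, hp₁, hp₂, hs₁, hs₂, hH₁, hH₂, hgrow⟩ :=
    good_pair_slope hA hK hs (2 * j + 1)
  set q := p₁ * p₂ with hq
  have hqlaw : Law q := hp₁.mul hp₂
  rw [← hκ] at hH₁ hH₂ hgrow
  have hD₁ : Real.log A.card - D ≤ H p₁ := by
    refine le_trans (le_of_eq ?_) hH₁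
    rw [hD]
  have hn1 : 1 ≤ 2 ^ j := Nat.one_le_two_pow
  have hg1 : H (q ^ (2 * 2 ^ j * 2 ^ j)) ≤ (H p₁ + H p₂) / 2 + b := by
    have e1 : 2 * 2 ^ j * 2 ^ j = 2 ^ (2 * j + 1) := by ring
    rw [e1]
    refine (hgrow (2 * j + 1) le_rfl).trans ?_
    linarith
  have hsz := bohr_size hA hK hp₁ hp₂ hs₁ hs₂ hD₁ (n := 2 ^ j) (m := 2 ^ j) hn1 hn1
    (b := b) hg1 h4
  -- near invariance
  have hinc : H (q ^ (2 ^ j + 1)) - H q ≤ ((2 ^ j : ℕ) : ℝ) * ε := by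
    have h1 : H (q ^ (2 ^ j + 1)) ≤ H (q ^ (2 ^ (j + 1))) := by
      have e1 : q ^ (2 ^ (j + 1)) = q ^ (2 ^ j + 1) * q ^ (2 ^ j - 1) := by
        rw [← pow_add]; congr 1
        have : 2 ^ (j + 1) = 2 ^ j + 2 ^ j := by ring
        omega
      rw [e1]
      exact H_le_mul (hqlaw.pow _) (hqlaw.pow _)
    have h2 := hgrow (j + 1) (by omega)
    have h3 : (H p₁ + H p₂) / 2 ≤ H q := by
      have a1 : H p₁ ≤ H q := H_le_mul hp₁ hp₂
      have a2 : H p₂ ≤ H q := by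
        rw [hq, mul_comm]; exact H_le_mul hp₂ hp₁
      linarith
    push_cast at h2 hε ⊢
    linarith
  obtain ⟨E, hEA, hEcard, hE⟩ := near_invariance hp₁ hp₂ hs₁ hn1 hD₁ hinc
  rw [← hq] at hE
  set S : Set (G →+ UnitAddCircle) := {γ | 1 / 2 ≤ ‖ft (q ^ 2 ^ j) γ‖} with hS
  have hApos : (0 : ℝ) < A.card := by exact_mod_cast hA.card_pos
  have hEpos : (0 : ℝ) < E.card := lt_of_lt_of_le (by positivity) hEcard
  have hEne : E.Nonempty := by
    rw [← Finset.card_pos]; exact_mod_cast hEpos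
  -- E - E inside the Bohr set
  have hEE : ∀ x ∈ E, ∀ y ∈ E, x - y ∈ bohr S ρ₀ := by
    intro x hx y hy γ hγ
    exact (hE x hx y hy γ hγ).trans hρ
  -- covering
  have hcov : ((A + E).card : ℝ) ≤ (K * Real.exp (2 * D + 1)) * E.card := by
    have h1 : ((A + E).card : ℝ) ≤ (A + A).card := by
      exact_mod_cast Finset.card_le_card (Finset.add_subset_add_left hEA)
    have h2 : (A.card : ℝ) ≤ Real.exp (2 * D + 1) * E.card := by
      have h3 : (A.card : ℝ) = Real.exp (2 * D + 1) * (A.card * Real.exp (-(2 * D + 1))) := by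
        rw [Real.exp_neg]; field_simp
      rw [h3]
      exact mul_le_mul_of_nonneg_left hEcard (Real.exp_pos _).le
    calc ((A + E).card : ℝ) ≤ K * A.card := h1.trans hK
      _ ≤ K * (Real.exp (2 * D + 1) * E.card) := mul_le_mul_of_nonneg_left h2 (by linarith)
      _ = _ := by ring
  obtain ⟨X, hXA, hXcard, hX⟩ := Finset.ruzsa_covering_add hEne hcov
  refine ⟨S, X, hsz.1, ?_, ?_, hXcard⟩
  · refine hsz.2.trans (le_of_eq ?_)
    ring
  · intro a ha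
    obtain ⟨x, hx, y, hy, hxy⟩ := Finset.mem_add.1 (hX ha)
    obtain ⟨u, hu, v, hv, huv⟩ := Finset.mem_sub.1 hy
    refine ⟨x, hx, ?_⟩
    have : a - x = u - v := by rw [← hxy, ← huv]; abel
    rw [this]
    exact hEE u hu v hv

end Pool.Agent.TH513.PT
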