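import Pool.Agent.H112R2.Main
import Pool.Agent.H137R2.Weak.Final
set_option autoImplicit false

/-! Reducing the dimension of the Bohr model with the weak Marton theorem. -/

namespace Pool.Agent.TH513.PT

open Finset H112
open scoped Pointwise

variable {G : Type*} [AddCommGroup G]

theorem fst_eq_zero_of_torsion {m : ℕ} {F : Type*} [AddCommGroup F] {p : (Fin m → ℤ) × F}
    {n : ℕ} (hn : n ≠ 0) (h : n • p = 0) : p.1 = 0 := by
  have h1 : n • p.1 = 0 := by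
    have := congrArg Prod.fst h
    simpa using this
  funext i
  have h2 := congrFun h1 i
  simp only [Pi.smul_apply, nsmul_eq_mul, Pi.zero_apply, mul_eq_zero, Nat.cast_eq_zero] at h2
  rcases h2 with h2 | h2
  · exact absurd h2 hn
  · exact h2

/-- pigeonhole -/
theorem exists_popular {α β : Type*} {A : Finset α} {X : Finset β} (hA : A.Nonempty)
    (R : α → β → Prop) [∀ a x, Decidable (R a x)] (h : ∀ a ∈ A, ∃ x ∈ X, R a x) :
    ∃ x ∈ X, (A.card : ℝ) ≤ X.card * ((A.filter fun a => R a x).card : ℝ) := by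
  classical
  have hXne : X.Nonempty := by
    obtain ⟨a, ha⟩ := hA
    obtain ⟨x, hx, _⟩ := h a ha
    exact ⟨x, hx⟩
  have hX0 : (0 : ℝ) < X.card := by exact_mod_cast hXne.card_pos
  have hsub : A ⊆ X.biUnion fun x => A.filter fun a => R a x := by
    intro a ha
    obtain ⟨x, hx, hr⟩ := h a ha
    rw [Finset.mem_biUnion]
    exact ⟨x, hx, Finset.mem_filter.2 ⟨ha, hr⟩⟩
  have h1 : (A.card : ℝ) ≤ ∑ x ∈ X, ((A.filter fun a => R a x).card : ℝ) := by
    have := (Finset.card_le_card hsub).trans Finset.card_biUnion_le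
    exact_mod_cast this
  have h2 : ∑ _x ∈ X, (A.card : ℝ) / X.card ≤
      ∑ x ∈ X, ((A.filter fun a => R a x).card : ℝ) := by
    refine le_trans (le_of_eq ?_) h1
    rw [Finset.sum_const, nsmul_eq_mul]
    field_simp
  obtain ⟨x, hx, hle⟩ := Finset.exists_le_of_sum_le hXne h2
  refine ⟨x, hx, ?_⟩
  rw [div_le_iff₀ hX0] at hle
  linarith

/-- the weak Marton theorem for an arbitrary decidable equality -/
theorem weak_marton_dec {Γ : Type*} [AddCommGroup Γ] [inst : DecidableEq Γ] {K : ℝ}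
    {A : Finset Γ} (hA : A.Nonempty) (hK : ((A + A).card : ℝ) ≤ K * A.card) :
    ∃ (P : AddSubgroup Γ) (S T : Finset Γ), Finite P ∧
      (S.card : ℝ) ≤ 480 * Real.log K + 1 ∧ (T.card : ℝ) ≤ K ^ 185 ∧
      ∀ a ∈ A, ∃ t ∈ T, ∃ o : Γ, (∃ m : ℕ, Odd m ∧ m • o = 0) ∧
        a - t - o ∈ P ⊔ AddSubgroup.closure (S : Set Γ) := by
  obtain rfl : inst = fun a b => Classical.propDecidable (a = b) := Subsingleton.elim _ _
  obtain ⟨P, S, T, h1, _, _, h2, _, h3, h4⟩ := H137.Weak.weak_marton hA hK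
  exact ⟨P, S, T, h1, h2, h3, h4⟩

/-- the weak Marton theorem read on the first coordinate -/
theorem marton_fst {m : ℕ} {F : Type*} [AddCommGroup F] [DecidableEq F]
    {B1 : Finset ((Fin m → ℤ) × F)} (hne : B1.Nonempty) {K : ℝ}
    (hK : ((B1 + B1).card : ℝ) ≤ K * B1.card) :
    ∃ (S' : Finset (Fin m → ℤ)) (T0 : Finset ((Fin m → ℤ) × F)),
      (S'.card : ℝ) ≤ 480 * Real.log K + 1 ∧ (T0.card : ℝ) ≤ K ^ 185 ∧
      ∀ u ∈ B1, ∃ t ∈ T0, u.1 - t.1 ∈ AddSubgroup.closure (S' : Set (Fin m → ℤ)) := by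
  classical
  obtain ⟨P, S0, T0, hPfin, hS0, hT0card, hcov⟩ := weak_marton_dec hne hK
  obtain ⟨S', hS'⟩ : ∃ S' : Finset (Fin m → ℤ), S' = S0.image Prod.fst := ⟨_, rfl⟩
  refine ⟨S', T0, ?_, hT0card, ?_⟩
  · refine le_trans ?_ hS0
    rw [hS']
    exact_mod_cast Finset.card_image_le
  · intro u hu
    obtain ⟨t, ht, o, ⟨n, hn, hno⟩, hmem⟩ := hcov u hu
    refine ⟨t, ht, ?_⟩
    have ho : o.1 = 0 := fst_eq_zero_of_torsion (by rintro rfl; simp at hn) hno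
    obtain ⟨p, hp, q, hq, hpq⟩ := AddSubgroup.mem_sup.1 hmem
    have hp0 : p.1 = 0 := by
      have hfo : IsOfFinAddOrder (⟨p, hp⟩ : P) := isOfFinAddOrder_of_finite _
      obtain ⟨n', hn', hn'2⟩ := hfo.exists_nsmul_eq_zero
      have h3 : n' • p = 0 := by
        have := congrArg (P.subtype) hn'2
        simpa using this
      exact fst_eq_zero_of_torsion hn'.ne' h3
    have hq1 : q.1 ∈ AddSubgroup.closure (S' : Set (Fin m → ℤ)) := by
      have h4 : (AddMonoidHom.fst (Fin m → ℤ) F) q ∈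
          (AddSubgroup.closure (S0 : Set ((Fin m → ℤ) × F))).map
            (AddMonoidHom.fst (Fin m → ℤ) F) := AddSubgroup.mem_map_of_mem _ hq
      rw [AddMonoidHom.map_closure] at h4
      rw [hS', Finset.coe_image]
      exact h4
    have h5 := congrArg Prod.fst hpq
    simp only [Prod.fst_add, Prod.fst_sub] at h5
    rw [hp0, ho, zero_add, sub_zero] at h5
    rw [← h5]
    exact hq1

/-- the doubling of the lifted set -/
theorem lift_doubling {W : Type*} [AddCommGroup W] [DecidableEq W] [DecidableEq G] (Φ : W →+ G)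
    {A : Finset G} {B : Finset W} {x : G} (hBA : ∀ u ∈ B, Φ u + x ∈ A)
    (hinj : ∀ u ∈ B + B, ∀ v ∈ B + B, Φ u = Φ v → u = v) :
    (B + B).card ≤ (A + A).card := by
  apply Finset.card_le_card_of_injOn (fun u => Φ u + (x + x))
  · intro u hu
    obtain ⟨v, hv, w, hw, rfl⟩ := Finset.mem_add.1 hu
    refine Finset.mem_add.2 ⟨Φ v + x, hBA v hv, Φ w + x, hBA w hw, ?_⟩
    show (Φ v + x) + (Φ w + x) = Φ (v + w) + (x + x)
    rw [map_add]
    abel
  · intro u hu v hv huv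
    exact hinj u hu v hv (add_right_cancel huv)

/-- Ruzsa covering through the lift -/
theorem lift_cover {W : Type*} [AddCommGroup W] [DecidableEq W] [DecidableEq G] (Φ : W →+ G)
    {K c : ℝ} {A : Finset G} (hK1 : 0 ≤ K) (hc : 0 ≤ c)
    (hK : ((A + A).card : ℝ) ≤ K * A.card)
    {B : Finset W} {x : G} (hBA : ∀ u ∈ B, Φ u + x ∈ A) (hBne : B.Nonempty)
    (hinj : ∀ u ∈ B, ∀ v ∈ B, Φ u = Φ v → u = v) (hpop : (A.card : ℝ) ≤ c * B.card)
    {T0 : Finset W} (R : W → W → Prop) (hcov : ∀ u ∈ B, ∃ t ∈ T0, R u t) :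
    ∃ X' : Finset G, (X'.card : ℝ) ≤ K * c * T0.card ∧ ∀ a ∈ A, ∃ y ∈ X', ∃ u ∈ B, ∃ v ∈ B,
      (∃ t, R u t ∧ R v t) ∧ a = y + (Φ u - Φ v) := by
  classical
  obtain ⟨t0, ht0, hpop2⟩ := exists_popular hBne R hcov
  obtain ⟨B2, hB2⟩ : ∃ B2, B2 = B.filter fun u => R u t0 := ⟨_, rfl⟩
  rw [← hB2] at hpop2
  have hBpos : (0 : ℝ) < B.card := by exact_mod_cast hBne.card_pos
  have hT0pos : (0 : ℝ) < T0.card := by exact_mod_cast (Finset.card_pos.2 ⟨t0, ht0⟩)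
  have hB2pos : (0 : ℝ) < B2.card := by
    by_contra hcon
    push Not at hcon
    nlinarith
  have hB2sub : B2 ⊆ B := by rw [hB2]; exact Finset.filter_subset _ _
  obtain ⟨E, hE⟩ : ∃ E, E = B2.image fun u => Φ u + x := ⟨_, rfl⟩
  have hEcard : E.card = B2.card := by
    rw [hE]
    apply Finset.card_image_of_injOn
    intro u hu v hv huv
    exact hinj u (hB2sub hu) v (hB2sub hv) (add_right_cancel huv)
  have hEA : E ⊆ A := by
    intro e he
    rw [hE, Finset.mem_image] at he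
    obtain ⟨u, hu, rfl⟩ := he
    exact hBA u (hB2sub hu)
  have hEne : E.Nonempty := by
    rw [← Finset.card_pos, hEcard]; exact_mod_cast hB2pos
  have hcovE : ((A + E).card : ℝ) ≤ (K * c * T0.card) * E.card := by
    have e1 : ((A + E).card : ℝ) ≤ (A + A).card := by
      exact_mod_cast Finset.card_le_card (Finset.add_subset_add_left hEA)
    rw [hEcard]
    have hKc : 0 ≤ K * c := mul_nonneg hK1 hc
    calc ((A + E).card : ℝ) ≤ K * A.card := e1.trans hK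
      _ ≤ K * (c * B.card) := mul_le_mul_of_nonneg_left hpop hK1
      _ = (K * c) * B.card := by ring
      _ ≤ (K * c) * (T0.card * B2.card) := mul_le_mul_of_nonneg_left hpop2 hKc
      _ = _ := by ring
  obtain ⟨X', hX'A, hX'card, hX'⟩ := Finset.ruzsa_covering_add hEne hcovE
  refine ⟨X', hX'card, ?_⟩
  intro a ha
  obtain ⟨y, hy, z, hz, hyz⟩ := Finset.mem_add.1 (hX' ha)
  obtain ⟨e, he, e', he', hee⟩ := Finset.mem_sub.1 hz
  rw [hE, Finset.mem_image] at he he'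
  obtain ⟨u, hu, rfl⟩ := he
  obtain ⟨u', hu', rfl⟩ := he'
  refine ⟨y, hy, u, hB2sub hu, u', hB2sub hu', ⟨t0, ?_, ?_⟩, ?_⟩
  · rw [hB2, Finset.mem_filter] at hu
    exact hu.2
  · rw [hB2, Finset.mem_filter] at hu'
    exact hu'.2
  · rw [← hyz, ← hee]
    abel

theorem descend [DecidableEq G] {K : ℝ} {A : Finset G} (hA : A.Nonempty)
    (hK : ((A + A).card : ℝ) ≤ K * A.card) (hK1 : 1 ≤ K) {S : Set (G →+ UnitAddCircle)}
    {X : Finset G} {ρ : ℝ} (hρ0 : 0 ≤ ρ) (hρ : 4 * ρ ≤ 1 / 6)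
    (hX : ∀ a ∈ A, ∃ x ∈ X, a - x ∈ bohr S ρ)
    {m : ℕ} (N : Seminorm ℝ (Fin m → ℝ)) (ψ : (Fin m → ℤ) →+ G) (hN : ∀ x, N x = 0 → x = 0)
    (h1 : ∀ c : Fin m → ℤ, N (fun i => (c i : ℝ)) < 1 / 2 → ∀ r : ℝ, 0 ≤ r →
        (ψ c ∈ bohr S r ↔ c ∈ LL N r))
    (h2 : ∀ x ∈ bohr S ρ, ∃ c ∈ LL N ρ, x - ψ c ∈ ann S) :
    ∃ (S' : Finset (Fin m → ℤ)) (X' : Finset G),
      (S'.card : ℝ) ≤ 480 * Real.log (K * X.card) + 1 ∧
      (X'.card : ℝ) ≤ (K * X.card) * (K * X.card) ^ 185 ∧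
      ∀ a ∈ A, ∃ x ∈ X', ∃ c ∈ AddSubgroup.closure (S' : Set (Fin m → ℤ)),
        c ∈ LL N (2 * ρ) ∧ ∃ h ∈ ann S, a = x + ψ c + h := by
  classical
  obtain ⟨x, hx, hpop⟩ := exists_popular hA (fun a x => a - x ∈ bohr S ρ) hX
  obtain ⟨A1, hA1⟩ : ∃ A1, A1 = A.filter fun a => a - x ∈ bohr S ρ := ⟨_, rfl⟩
  rw [← hA1] at hpop
  have hApos : (0 : ℝ) < A.card := by exact_mod_cast hA.card_pos
  have hXpos : (0 : ℝ) < X.card := by exact_mod_cast (Finset.card_pos.2 ⟨x, hx⟩)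
  have hA1pos : (0 : ℝ) < A1.card := by
    by_contra hcon
    push Not at hcon
    nlinarith
  have hA1sub : A1 ⊆ A := by rw [hA1]; exact Finset.filter_subset _ _
  have hA1mem : ∀ a ∈ A1, a - x ∈ bohr S ρ := by
    intro a ha
    rw [hA1, Finset.mem_filter] at ha
    exact ha.2
  have hch : ∀ a : G, ∃ u : (Fin m → ℤ) × ann S, a ∈ A1 →
      (u.1 ∈ LL N ρ ∧ ψ u.1 + (u.2 : G) = a - x) := by
    intro a
    by_cases ha : a ∈ A1
    · obtain ⟨c, hc, hc2⟩ := h2 _ (hA1mem a ha)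
      exact ⟨(c, ⟨_, hc2⟩), fun _ => ⟨hc, by simp⟩⟩
    · exact ⟨0, fun h => absurd h ha⟩
  choose f hf using hch
  -- the homomorphism to `G`
  obtain ⟨Φ, hΦ⟩ : ∃ Φ : (Fin m → ℤ) × ann S →+ G, ∀ u, Φ u = ψ u.1 + (u.2 : G) :=
    ⟨ψ.comp (AddMonoidHom.fst _ _) + (ann S).subtype.comp (AddMonoidHom.snd _ _),
      fun u => rfl⟩
  have hΦf : ∀ a ∈ A1, Φ (f a) = a - x := fun a ha => by rw [hΦ]; exact (hf a ha).2
  obtain ⟨B1, hB1⟩ : ∃ B1, B1 = A1.image f := ⟨_, rfl⟩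
  have hfinj : Set.InjOn f A1 := by
    intro a ha b hb hab
    have e1 := hΦf a ha
    have e2 := hΦf b hb
    rw [hab, e2] at e1
    exact (sub_left_injective e1).symm
  have hB1card : B1.card = A1.card := by rw [hB1, Finset.card_image_of_injOn hfinj]
  have hB1pos : (0 : ℝ) < B1.card := by rw [hB1card]; exact hA1pos
  have hB1ne : B1.Nonempty := by rw [← Finset.card_pos]; exact_mod_cast hB1pos
  have hB1N : ∀ u ∈ B1, u.1 ∈ LL N ρ := by
    intro u hu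
    rw [hB1, Finset.mem_image] at hu
    obtain ⟨a, ha, rfl⟩ := hu
    exact (hf a ha).1
  have hB1A : ∀ u ∈ B1, Φ u + x ∈ A := by
    intro u hu
    rw [hB1, Finset.mem_image] at hu
    obtain ⟨a, ha, rfl⟩ := hu
    rw [hΦf a ha, sub_add_cancel]
    exact hA1sub ha
  -- injectivity of `Φ` on small elements
  have hΦinj : ∀ u v : (Fin m → ℤ) × ann S, u.1 ∈ LL N (2 * ρ) → v.1 ∈ LL N (2 * ρ) →
      Φ u = Φ v → u = v := by
    intro u v hu hv huv
    have hd : u.1 - v.1 ∈ LL N (2 * ρ + 2 * ρ) := LL_add N hu hv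
    have hd2 : N (fun i => (((u.1 - v.1) i : ℤ) : ℝ)) < 1 / 2 := by
      have : N (fun i => (((u.1 - v.1) i : ℤ) : ℝ)) ≤ 2 * ρ + 2 * ρ := hd
      linarith
    rw [hΦ, hΦ] at huv
    have hd3 : ψ (u.1 - v.1) ∈ ann S := by
      rw [map_sub]
      have e : ψ u.1 - ψ v.1 = (v.2 : G) - (u.2 : G) := by
        rw [sub_eq_sub_iff_add_eq_add, huv]; abel
      rw [e]
      exact (ann S).sub_mem v.2.2 u.2.2
    have hd4 : u.1 - v.1 ∈ LL N 0 := (h1 _ hd2 0 le_rfl).1 (bohr_zero_of_ann hd3 le_rfl)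
    have hd5 : u.1 = v.1 := sub_eq_zero.1 (LL_zero hN hd4)
    rw [hd5] at huv
    have hd6 : (u.2 : G) = v.2 := add_left_cancel huv
    exact Prod.ext hd5 (Subtype.ext hd6)
  have hLLadd : ∀ {r s : ℝ} {c d : Fin m → ℤ}, c ∈ LL N r → d ∈ LL N s → c + d ∈ LL N (r + s) := by
    intro r s c d hc hd
    have e1 : (fun i => (((c + d) i : ℤ) : ℝ)) = (fun i => (c i : ℝ)) + (fun i => (d i : ℝ)) := by
      funext i; simp
    show N _ ≤ r + s
    rw [e1]
    exact (map_add_le_add N _ _).trans (add_le_add hc hd)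
  have hBB : ∀ u ∈ B1 + B1, u.1 ∈ LL N (2 * ρ) := by
    intro u hu
    obtain ⟨u1, hu1, u2, hu2, rfl⟩ := Finset.mem_add.1 hu
    rw [two_mul]
    exact hLLadd (hB1N _ hu1) (hB1N _ hu2)
  have hB1B1 : ((B1 + B1).card : ℝ) ≤ (A + A).card := by
    exact_mod_cast lift_doubling Φ hB1A
      (fun u hu v hv h => hΦinj u v (hBB u hu) (hBB v hv) h)
  have hK' : ((B1 + B1).card : ℝ) ≤ (K * X.card) * B1.card := by
    rw [hB1card]
    calc ((B1 + B1).card : ℝ) ≤ K * A.card := hB1B1.trans hK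
      _ ≤ K * (X.card * A1.card) := mul_le_mul_of_nonneg_left hpop (by linarith)
      _ = _ := by ring
  obtain ⟨S', T0, hS', hT0card, hcov⟩ := marton_fst hB1ne hK'
  have hB1small : ∀ u ∈ B1, u.1 ∈ LL N (2 * ρ) := by
    intro u hu
    have h3 : N (fun i => (u.1 i : ℝ)) ≤ ρ := hB1N u hu
    show N _ ≤ 2 * ρ
    linarith
  obtain ⟨X', hX'card, hX'⟩ := lift_cover Φ (by linarith) hXpos.le hK hB1A hB1ne
    (fun u hu v hv h => hΦinj u v (hB1small u hu) (hB1small v hv) h)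
    (by rw [hB1card]; exact hpop)
    (fun u t => u.1 - t.1 ∈ AddSubgroup.closure (S' : Set (Fin m → ℤ))) hcov
  refine ⟨S', X', hS', ?_, ?_⟩
  · exact hX'card.trans (mul_le_mul_of_nonneg_left hT0card (by positivity))
  · intro a ha
    obtain ⟨y, hy, u, hu, v, hv, ⟨t, ht1, ht2⟩, hauv⟩ := hX' a ha
    refine ⟨y, hy, u.1 - v.1, ?_, ?_, (u.2 : G) - v.2, (ann S).sub_mem u.2.2 v.2.2, ?_⟩
    · have := AddSubgroup.sub_mem _ ht1 ht2
      have e1 : (u.1 - t.1) - (v.1 - t.1) = u.1 - v.1 := by abel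
      rw [e1] at this
      exact this
    · rw [two_mul]
      exact LL_add N (hB1N _ hu) (hB1N _ hv)
    · rw [hauv, hΦ, hΦ, map_sub]
      abel

end Pool.Agent.TH513.PT
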