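import Mathlib
set_option autoImplicit false

/-! Numerical choices for the polynomial-translates theorem. -/

namespace Pool.Agent.TH513.PT

open Real

theorem one_add_pow_le {s : ℕ} (hs : 8 ≤ s) (t : ℕ) :
    (1 + 1 / (s : ℝ)) ^ (2 * (s * t) + 1) ≤ 9 / 8 * 8 ^ t := by
  have hs0 : (0 : ℝ) < s := by exact_mod_cast (by omega : 0 < s)
  have h1 : (1 + 1 / (s : ℝ)) ^ s ≤ Real.exp 1 := by
    have h : 1 + 1 / (s : ℝ) ≤ Real.exp (1 / s) := by
      have := Real.add_one_le_exp (1 / (s : ℝ)); linarith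
    calc (1 + 1 / (s : ℝ)) ^ s ≤ (Real.exp (1 / s)) ^ s :=
          pow_le_pow_left₀ (by positivity) h s
      _ = Real.exp 1 := by
          rw [← Real.exp_nat_mul]; congr 1; field_simp
  have h2 : ((1 + 1 / (s : ℝ)) ^ s) ^ 2 ≤ 8 := by
    have h3 := Real.exp_one_lt_d9
    have h4 : (0 : ℝ) ≤ (1 + 1 / (s : ℝ)) ^ s := by positivity
    nlinarith
  have h5 : (1 : ℝ) / s ≤ 1 / 8 := by
    apply one_div_le_one_div_of_le (by norm_num)
    exact_mod_cast hs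
  calc (1 + 1 / (s : ℝ)) ^ (2 * (s * t) + 1)
      = (((1 + 1 / (s : ℝ)) ^ s) ^ 2) ^ t * (1 + 1 / (s : ℝ)) := by
        rw [pow_succ, ← pow_mul, ← pow_mul]; congr 2; ring
    _ ≤ 8 ^ t * (9 / 8) := by
        apply mul_le_mul _ (by linarith) (by positivity) (by positivity)
        exact pow_le_pow_left₀ (by positivity) h2 t
    _ = _ := by ring

theorem rpow_inv_le_two {k : ℕ} (hk : 1 ≤ k) : (k : ℝ) ^ (1 / (k : ℝ)) ≤ 2 := by
  have hk0 : (0 : ℝ) < k := by exact_mod_cast hk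
  have h1 : (k : ℝ) ≤ 2 ^ k := by exact_mod_cast (Nat.lt_two_pow_self (n := k)).le
  calc (k : ℝ) ^ (1 / (k : ℝ)) ≤ ((2 : ℝ) ^ k) ^ (1 / (k : ℝ)) :=
        Real.rpow_le_rpow hk0.le h1 (by positivity)
    _ = 2 := by
        rw [← Real.rpow_natCast, ← Real.rpow_mul (by norm_num)]
        rw [mul_one_div_cancel hk0.ne', Real.rpow_one]

theorem rpow_inv_le_self {k : ℕ} (hk : 1 ≤ k) {x : ℝ} (hx : 1 ≤ x) : x ^ (1 / (k : ℝ)) ≤ x := by
  have hk1 : (1 : ℝ) ≤ k := by exact_mod_cast hk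
  calc x ^ (1 / (k : ℝ)) ≤ x ^ (1 : ℝ) :=
        Real.rpow_le_rpow_of_exponent_le hx (by rw [div_le_one (by linarith)]; exact hk1)
    _ = x := Real.rpow_one x

/-- all numerical parameters -/
theorem params {k : ℕ} (hk : 1 ≤ k) {κ : ℝ} (hκ : 0.69 < κ) :
    ∃ (j : ℕ) (b ε : ℝ),
      2 * κ * ((2 * j + 1 : ℕ) + 1) * (1 + 1 / ((4 * k + 4 : ℕ) : ℝ)) ^ (2 * j + 1) ≤ b ∧
      2 * κ * ((j + 1 : ℕ) + 1) * (1 + 1 / ((4 * k + 4 : ℕ) : ℝ)) ^ (j + 1) ≤ 2 ^ j * ε ∧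
      4 * Real.sqrt ε ≤ 1 / 24 ∧
      (∀ y : ℝ, y ≤ 5 * b → (1 / 4 : ℝ) ^ (2 ^ j) ≤ Real.exp (-y) / 4) ∧
      80 * (4 * k + 4) * κ ≤ b ∧
      b ≤ 5 * 10 ^ 8 * k * (κ * κ ^ (1 / (k : ℝ))) := by
  have hk1 : (1 : ℝ) ≤ k := by exact_mod_cast hk
  have hκ0 : 0 < κ := by linarith
  obtain ⟨s, hs⟩ : ∃ s : ℕ, s = 4 * k + 4 := ⟨_, rfl⟩
  have hs8 : 8 ≤ s := by omega
  have hsR : (s : ℝ) = 4 * k + 4 := by rw [hs]; push_cast; ring
  have hs8R : (8 : ℝ) ≤ s := by exact_mod_cast hs8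
  have hx1 : (1 : ℝ) ≤ 46080 * s * κ := by nlinarith
  have h16 : (1 : ℝ) < 16 ^ k := one_lt_pow₀ (by norm_num) (by omega)
  obtain ⟨n, hn1, hn2⟩ := exists_nat_pow_near hx1 h16
  obtain ⟨t, ht⟩ : ∃ t : ℕ, t = n + 1 := ⟨_, rfl⟩
  obtain ⟨b, hb⟩ : ∃ b : ℝ, b = 5 * s * κ * 16 ^ t := ⟨_, rfl⟩
  have hb0 : 0 < b := by rw [hb]; positivity
  have ht1 : (1 : ℝ) ≤ 16 ^ n := one_le_pow₀ (by norm_num)
  have hblow : 80 * s * κ ≤ b := by
    rw [hb, ht, pow_succ]
    have : 0 < (s : ℝ) * κ := by positivity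
    nlinarith
  -- `2^(s t) ≥ 9216 b`
  have h2j : 9216 * b ≤ 2 ^ (s * t) := by
    have e1 : (2 : ℝ) ^ (s * t) = 16 ^ t * (16 ^ k) ^ t := by
      have e2 : s * t = 4 * t + 4 * (k * t) := by rw [hs]; ring
      have e3 : (2 : ℝ) ^ (4 * t) = 16 ^ t := by rw [pow_mul]; norm_num
      have e4 : (2 : ℝ) ^ (4 * (k * t)) = (16 ^ k) ^ t := by rw [pow_mul, pow_mul]; norm_num
      rw [e2, pow_add, e3, e4]
    rw [e1, hb]
    have h3 : 46080 * (s : ℝ) * κ ≤ (16 ^ k) ^ t := by rw [ht]; exact hn2.le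
    have h4 : (0 : ℝ) < 16 ^ t := by positivity
    nlinarith
  have ht2 : (t : ℝ) + 1 ≤ 2 ^ t := by
    have := Nat.lt_two_pow_self (n := t)
    exact_mod_cast this
  have hcoef : ((2 * (s * t) + 1 : ℕ) : ℝ) + 1 ≤ 2 * s * 2 ^ t := by
    push_cast
    have : 2 * (s : ℝ) * (t + 1) ≤ 2 * s * 2 ^ t := by
      apply mul_le_mul_of_nonneg_left ht2 (by positivity)
    nlinarith
  have hpow := one_add_pow_le hs8 t
  have hA : 2 * κ * ((2 * (s * t) + 1 : ℕ) + 1) * (1 + 1 / (s : ℝ)) ^ (2 * (s * t) + 1) ≤ b := by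
    calc 2 * κ * ((2 * (s * t) + 1 : ℕ) + 1) * (1 + 1 / (s : ℝ)) ^ (2 * (s * t) + 1)
        ≤ 2 * κ * (2 * s * 2 ^ t) * (9 / 8 * 8 ^ t) := by
          apply mul_le_mul _ hpow (by positivity) (by positivity)
          exact mul_le_mul_of_nonneg_left hcoef (by positivity)
      _ = 9 / 2 * (s * κ) * 16 ^ t := by
          have : (16 : ℝ) ^ t = 2 ^ t * 8 ^ t := by rw [← mul_pow]; norm_num
          rw [this]; ring
      _ ≤ b := by
          rw [hb]
          have h4 : (0 : ℝ) < 16 ^ t := by positivity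
          have h5 : 0 < (s : ℝ) * κ := by positivity
          have h6 : 0 < (s : ℝ) * κ * 16 ^ t := by positivity
          nlinarith
  have hone : (1 : ℝ) ≤ 1 + 1 / (s : ℝ) := by
    have : 0 ≤ 1 / (s : ℝ) := by positivity
    linarith
  have hB : 2 * κ * ((s * t + 1 : ℕ) + 1) * (1 + 1 / (s : ℝ)) ^ (s * t + 1) ≤ b := by
    refine le_trans ?_ hA
    apply mul_le_mul
    · apply mul_le_mul_of_nonneg_left _ (by positivity)
      have : ((s * t + 1 : ℕ) : ℝ) ≤ ((2 * (s * t) + 1 : ℕ) : ℝ) := by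
        exact_mod_cast (by omega : s * t + 1 ≤ 2 * (s * t) + 1)
      linarith
    · exact pow_le_pow_right₀ hone (by omega)
    · positivity
    · positivity
  have h2pos : (0 : ℝ) < 2 ^ (s * t) := by positivity
  rw [← hs]
  refine ⟨s * t, b, b / 2 ^ (s * t), hA, ?_, ?_, ?_, ?_, ?_⟩
  · rw [mul_div_cancel₀ _ h2pos.ne']; exact hB
  · have h1 : b / 2 ^ (s * t) ≤ (1 / 96) ^ 2 := by
      rw [div_le_iff₀ h2pos]; nlinarith
    have h2 : Real.sqrt (b / 2 ^ (s * t)) ≤ 1 / 96 := by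
      rw [show (1 : ℝ) / 96 = Real.sqrt ((1 / 96) ^ 2) by
        rw [Real.sqrt_sq (by norm_num)]]
      exact Real.sqrt_le_sqrt h1
    linarith
  · intro y hy
    have he : (1 / 4 : ℝ) ≤ Real.exp (-1) := by
      rw [Real.exp_neg, one_div]
      apply inv_anti₀ (Real.exp_pos _)
      have := Real.exp_one_lt_d9; linarith
    have he2 : Real.exp (-2) ≤ 1 / 4 := by
      rw [Real.exp_neg, one_div]
      apply inv_anti₀ (by norm_num)
      have h1 : (2.7 : ℝ) ≤ Real.exp 1 := by have := Real.exp_one_gt_d9; linarith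
      have h2 : Real.exp 2 = Real.exp 1 ^ 2 := by rw [← Real.exp_nat_mul]; norm_num
      rw [h2]; nlinarith
    have h27 : 2 ≤ b := by nlinarith
    calc (1 / 4 : ℝ) ^ (2 ^ (s * t)) ≤ Real.exp (-1) ^ (2 ^ (s * t)) :=
          pow_le_pow_left₀ (by norm_num) he _
      _ = Real.exp (-(2 ^ (s * t))) := by
          rw [← Real.exp_nat_mul]; congr 1; push_cast; ring
      _ ≤ Real.exp (-y + -2) := by
          apply Real.exp_le_exp.2; linarith
      _ = Real.exp (-y) * Real.exp (-2) := Real.exp_add _ _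
      _ ≤ Real.exp (-y) * (1 / 4) := mul_le_mul_of_nonneg_left he2 (Real.exp_pos _).le
      _ = _ := by ring
  · rw [← hsR]; exact hblow
  · -- the upper bound for `b`
    have hkk : (0 : ℝ) < 1 / k := by positivity
    have h16n : (16 : ℝ) ^ n ≤ (46080 * s * κ) ^ (1 / (k : ℝ)) := by
      have h1 : ((16 : ℝ) ^ n) ^ k ≤ 46080 * s * κ := by
        rw [← pow_mul, mul_comm n k, pow_mul]; exact hn1
      calc (16 : ℝ) ^ n = (((16 : ℝ) ^ n) ^ k) ^ (1 / (k : ℝ)) := by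
            rw [← Real.rpow_natCast ((16 : ℝ) ^ n) k, ← Real.rpow_mul (by positivity),
              mul_one_div_cancel (by positivity), Real.rpow_one]
        _ ≤ _ := Real.rpow_le_rpow (by positivity) h1 hkk.le
    have hs8k : (s : ℝ) ≤ 8 * k := by rw [hsR]; linarith
    have hsplit : (46080 * s * κ) ^ (1 / (k : ℝ)) ≤ 737280 * κ ^ (1 / (k : ℝ)) := by
      calc (46080 * s * κ) ^ (1 / (k : ℝ)) ≤ ((46080 * 8) * k * κ) ^ (1 / (k : ℝ)) := by
            apply Real.rpow_le_rpow (by positivity) _ hkk.le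
            nlinarith
        _ = (46080 * 8 : ℝ) ^ (1 / (k : ℝ)) * (k : ℝ) ^ (1 / (k : ℝ)) * κ ^ (1 / (k : ℝ)) := by
            rw [Real.mul_rpow (by positivity) hκ0.le, Real.mul_rpow (by norm_num) (by positivity)]
        _ ≤ (46080 * 8) * 2 * κ ^ (1 / (k : ℝ)) := by
            apply mul_le_mul_of_nonneg_right _ (by positivity)
            apply mul_le_mul (rpow_inv_le_self hk (by norm_num)) (rpow_inv_le_two hk)
              (by positivity) (by positivity)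
        _ = _ := by norm_num
    have hfin := h16n.trans hsplit
    rw [hb, ht, pow_succ]
    have hp : 0 ≤ κ ^ (1 / (k : ℝ)) := by positivity
    calc 5 * (s : ℝ) * κ * (16 ^ n * 16) = 80 * (s * κ) * 16 ^ n := by ring
      _ ≤ 80 * (8 * k * κ) * (737280 * κ ^ (1 / (k : ℝ))) := by
          apply mul_le_mul _ hfin (by positivity) (by positivity)
          nlinarith
      _ = 471859200 * (k * (κ * κ ^ (1 / (k : ℝ)))) := by ring
      _ ≤ 5 * 10 ^ 8 * (k * (κ * κ ^ (1 / (k : ℝ)))) := by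
          apply mul_le_mul_of_nonneg_right (by norm_num) (by positivity)
      _ = _ := by ring

end Pool.Agent.TH513.PT
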