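import Pool.Agent.H112R2.Main
set_option autoImplicit false

/-! Restricting a lattice model to a sublattice with few generators. -/

namespace Pool.Agent.TH513.PT

open Finset H112

theorem sublattice_basis {m : ℕ} (S' : Finset (Fin m → ℤ)) :
    ∃ (d : ℕ) (v : Fin d → (Fin m → ℤ)), d ≤ S'.card ∧ LinearIndependent ℤ v ∧
      ∀ c ∈ AddSubgroup.closure (S' : Set (Fin m → ℤ)), ∃ a : Fin d → ℤ, c = ∑ i, a i • v i := by
  classical
  let M : Submodule ℤ (Fin m → ℤ) := Submodule.span ℤ (S' : Set (Fin m → ℤ))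
  let b := Module.finBasis ℤ M
  refine ⟨Module.finrank ℤ M, fun i => (b i : Fin m → ℤ), finrank_span_finset_le_card S', ?_, ?_⟩
  · exact b.linearIndependent.map' M.subtype M.ker_subtype
  · intro c hc
    have hcM : c ∈ M := by
      have h1 : AddSubgroup.closure (S' : Set (Fin m → ℤ)) ≤ M.toAddSubgroup := by
        rw [AddSubgroup.closure_le]
        exact Submodule.subset_span
      exact h1 hc
    refine ⟨fun i => b.repr ⟨c, hcM⟩ i, ?_⟩
    have h2 := congrArg M.subtype (b.sum_repr ⟨c, hcM⟩)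
    rw [map_sum] at h2
    simp only [map_smul, Submodule.subtype_apply] at h2
    exact h2.symm

/-- the model restricted to a sublattice -/
theorem sublattice_model {m : ℕ} (N : Seminorm ℝ (Fin m → ℝ)) (hN : ∀ x, N x = 0 → x = 0)
    (S' : Finset (Fin m → ℤ)) :
    ∃ (d : ℕ) (N' : Seminorm ℝ (Fin d → ℝ)) (φ : (Fin d → ℤ) →+ (Fin m → ℤ)), d ≤ S'.card ∧
      (∀ x, N' x = 0 → x = 0) ∧ Function.Injective φ ∧
      (∀ (a : Fin d → ℤ) (r : ℝ), a ∈ LL N' r ↔ φ a ∈ LL N r) ∧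
      ∀ c ∈ AddSubgroup.closure (S' : Set (Fin m → ℤ)), ∃ a : Fin d → ℤ, c = φ a := by
  classical
  obtain ⟨d, v, hd, hv, hcl⟩ := sublattice_basis S'
  have hv' : LinearIndependent ℝ (fun i => algebraMap ℤ ℝ ∘ v i) :=
    linearIndependent_algebraMap_comp_iff.2 hv
  obtain ⟨w, hw⟩ : ∃ w : Fin d → (Fin m → ℝ), w = fun i => algebraMap ℤ ℝ ∘ v i := ⟨_, rfl⟩
  rw [← hw] at hv'
  let Lr : (Fin d → ℝ) →ₗ[ℝ] (Fin m → ℝ) := Fintype.linearCombination ℝ w
  have hLr : Function.Injective Lr := hv'.fintypeLinearCombination_injective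
  let Lz : (Fin d → ℤ) →ₗ[ℤ] (Fin m → ℤ) := Fintype.linearCombination ℤ v
  have hLz : Function.Injective Lz := hv.fintypeLinearCombination_injective
  have hcast : ∀ a : Fin d → ℤ, Lr (fun i => (a i : ℝ)) = fun j => ((Lz a) j : ℝ) := by
    intro a
    funext j
    simp [Lr, Lz, Fintype.linearCombination_apply, hw, Finset.sum_apply]
  refine ⟨d, N.comp Lr, Lz.toAddMonoidHom, hd, ?_, hLz, ?_, ?_⟩
  · intro x hx
    have h1 : Lr x = 0 := hN _ hx
    exact hLr (by rw [h1, map_zero])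
  · intro a r
    show N (Lr (fun i => (a i : ℝ))) ≤ r ↔ N (fun j => ((Lz a) j : ℝ)) ≤ r
    rw [hcast]
  · intro c hc
    obtain ⟨a, ha⟩ := hcl c hc
    refine ⟨a, ?_⟩
    rw [ha]
    show _ = Lz a
    simp [Lz, Fintype.linearCombination_apply]

end Pool.Agent.TH513.PT
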