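import Pool.Agent.H112R2.Final
import Pool.Agent.TH513.PT.Core
import Pool.Agent.TH513.PT.Num
import Pool.Agent.TH513.PT.Desc
import Pool.Agent.TH513.PT.Sub
set_option autoImplicit false

/-! Polynomially many translates: assembly. -/

namespace Pool.Agent.TH513.PT

open Finset H112
open scoped Pointwise

/-- geometric part: from the Bohr model to a low dimensional body -/
theorem poly_geom {G : Type*} [AddCommGroup G] [DecidableEq G] {K : ℝ} {A : Finset G}
    (hA : A.Nonempty) (hK : ((A + A).card : ℝ) ≤ K * A.card) (hK1 : 1 ≤ K)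
    {S : Set (G →+ UnitAddCircle)} {X : Finset G} (hfin : (bohr S (1 / 6)).Finite)
    (hX : ∀ a ∈ A, ∃ x ∈ X, a - x ∈ bohr S (1 / 24)) :
    ∃ (d : ℕ) (B : Set (Fin d → ℝ)) (ψ : (Fin d → ℤ) →+ G) (H₀ : AddSubgroup G) (T : Finset G),
      (d : ℝ) ≤ 480 * Real.log (K * X.card) + 1 ∧ SymmBody B ∧ Finite H₀ ∧
      {c : Fin d → ℤ | (fun i => (c i : ℝ)) ∈ B}.ncard * Nat.card H₀ ≤ (bohr S (1 / 6)).ncard ∧
      (T.card : ℝ) ≤ (K * X.card) * (K * X.card) ^ 185 ∧
      Covers B ψ H₀ T A := by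
  classical
  obtain ⟨m, N, ψ, hN, h1, h2, _⟩ := lattice_repr S hfin (ρ := 1 / 24) (by norm_num) (by norm_num)
  obtain ⟨S', X', hS', hX', hcov⟩ := descend hA hK hK1 (ρ := 1 / 24) (by norm_num) (by norm_num)
    hX N ψ hN h1 h2
  obtain ⟨d, N', φ, hd, hN', hφ, hLL, hcl⟩ := sublattice_model N hN S'
  obtain ⟨hfinL, hcardL⟩ := card_LL_le hfin hN h1 (R := 2 * (1 / 24)) (by norm_num) (by norm_num)
  refine ⟨d, {x | N' x ≤ 2 * (1 / 24)}, ψ.comp φ, ann S, X', ?_,
    symmBody_ball N' hN' (by norm_num), ann_finite hfin, ?_, hX', ?_⟩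
  · refine le_trans ?_ hS'
    exact_mod_cast hd
  · refine le_trans (Nat.mul_le_mul_right _ ?_) hcardL
    apply Set.ncard_le_ncard_of_injOn φ _ hφ.injOn hfinL
    intro a ha
    exact (hLL a _).1 ha
  · intro a ha
    obtain ⟨x, hx, c, hc, hcL, h, hh, e⟩ := hcov a ha
    obtain ⟨a', ha'⟩ := hcl c hc
    refine ⟨x, hx, a', ?_, h, hh, ?_⟩
    · rw [ha'] at hcL
      exact (hLL a' _).2 hcL
    · rw [e, ha']
      rfl

theorem poly_fg {G : Type*} [AddCommGroup G] [AddGroup.FG G] [DecidableEq G] {K : ℝ}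
    {A : Finset G} (hA : A.Nonempty) (hK : ((A + A).card : ℝ) ≤ K * A.card) (hK1 : 1 ≤ K)
    {k : ℕ} (hk : 1 ≤ k) :
    ∃ (d : ℕ) (B : Set (Fin d → ℝ)) (ψ : (Fin d → ℤ) →+ G) (H₀ : AddSubgroup G) (T : Finset G),
      (d : ℝ) ≤ 18000 * k * Real.log (2 * K) ∧ SymmBody B ∧ Finite H₀ ∧
      (({c : Fin d → ℤ | (fun i => (c i : ℝ)) ∈ B}.ncard * Nat.card H₀ : ℕ) : ℝ) ≤
        Real.exp (2 * 10 ^ 9 * k * (Real.log (2 * K)) ^ (1 + 1 / (k : ℝ))) * A.card ∧
      (T.card : ℝ) ≤ (2 * K) ^ (7000 * k) ∧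
      Covers B ψ H₀ T A := by
  classical
  obtain ⟨κ, hκ⟩ : ∃ κ : ℝ, κ = Real.log (2 * K) := ⟨_, rfl⟩
  have hK0 : (0 : ℝ) < K := by linarith
  have hκlog2 : Real.log 2 ≤ κ := by
    rw [hκ]; exact Real.log_le_log (by norm_num) (by linarith)
  have hκ69 : (0.69 : ℝ) < κ := lt_of_lt_of_le log_two_gt hκlog2
  have hκ0 : 0 < κ := by linarith
  have hk1 : (1 : ℝ) ≤ k := by exact_mod_cast hk
  have hkκ : κ ≤ k * κ := by nlinarith
  have hlogK : Real.log K ≤ κ := by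
    rw [hκ]; exact Real.log_le_log hK0 (by linarith)
  have hexpκ : Real.exp κ = 2 * K := by rw [hκ, Real.exp_log (by linarith)]
  obtain ⟨j, b, ε, hg1, hg2, hρ, htail, hblow, hbup⟩ := params hk hκ69
  obtain ⟨D, hD⟩ : ∃ D : ℝ, D = 2 * ((4 * k + 4 : ℕ) : ℝ) * κ := ⟨_, rfl⟩
  have hD' : D = (8 * k + 8) * κ := by rw [hD]; push_cast; ring
  have hD2 : D ≤ 16 * (k * κ) := by rw [hD']; nlinarith
  have hD0 : 0 ≤ D := by rw [hD']; positivity
  obtain ⟨u, hu⟩ : ∃ u : ℝ, u = k * κ := ⟨_, rfl⟩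
  rw [← hu] at hkκ hD2
  have hb1 : 320 * u ≤ b := by
    have : 80 * (4 * (k : ℝ) + 4) * κ = 320 * (k * κ) + 320 * κ := by ring
    rw [← hu] at this
    linarith
  have hu0 : 0 < u := by linarith
  have hy : 2 * b + 2 * Real.log K + 2 * D ≤ 5 * b := by linarith
  obtain ⟨S, X, hfin, hsize, hX, hXcard⟩ := core_slope hA hK hK1 (s := 4 * k + 4) (by omega) j
    (ρ₀ := 1 / 24) hκ hg1 hD hg2 hρ (htail _ hy)
  obtain ⟨d, B, ψ, H₀, T, hd, hB, hH₀, hvol, hT, hcov⟩ := poly_geom hA hK hK1 hfin hX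
  have hApos : (0 : ℝ) < A.card := by exact_mod_cast hA.card_pos
  have hXpos : (0 : ℝ) < X.card := by
    obtain ⟨a, ha⟩ := hA
    obtain ⟨x, hx, _⟩ := hX a ha
    exact_mod_cast (Finset.card_pos.2 ⟨x, hx⟩)
  have h8 : (8 : ℝ) ≤ Real.exp (4 * κ) := by
    have h5 : Real.exp (4 * Real.log 2) ≤ Real.exp (4 * κ) := Real.exp_le_exp.2 (by linarith)
    have h6 : Real.exp (4 * Real.log 2) = 16 := by
      rw [show (4 : ℝ) * Real.log 2 = (4 : ℕ) * Real.log 2 by norm_num, Real.exp_nat_mul,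
        Real.exp_log (by norm_num)]
      norm_num
    linarith
  have he1 : Real.exp 1 ≤ Real.exp (2 * κ) := Real.exp_le_exp.2 (by linarith)
  have hKe : K ≤ Real.exp κ := by rw [hexpκ]; linarith
  have hKX : K * X.card ≤ Real.exp (36 * u) := by
    calc K * X.card ≤ Real.exp κ * (Real.exp κ * Real.exp (2 * D + 1)) := by
          apply mul_le_mul hKe _ hXpos.le (Real.exp_pos _).le
          exact hXcard.trans (mul_le_mul_of_nonneg_right hKe (Real.exp_pos _).le)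
      _ = Real.exp (κ + (κ + (2 * D + 1))) := by rw [← Real.exp_add, ← Real.exp_add]
      _ ≤ Real.exp (36 * u) := Real.exp_le_exp.2 (by linarith)
  have hKX0 : 0 < K * X.card := by positivity
  have hlogKX : Real.log (K * X.card) ≤ 36 * u := by
    rw [Real.log_le_iff_le_exp hKX0]; exact hKX
  refine ⟨d, B, ψ, H₀, T, ?_, hB, hH₀, ?_, ?_, hcov⟩
  · rw [← hκ]
    have e1 : 18000 * (k : ℝ) * κ = 18000 * u := by rw [hu]; ring
    rw [e1]
    linarith
  · rw [← hκ]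
    have h1 : (({c : Fin d → ℤ | (fun i => (c i : ℝ)) ∈ B}.ncard * Nat.card H₀ : ℕ) : ℝ) ≤
        (bohr S (1 / 6)).ncard := by exact_mod_cast hvol
    refine h1.trans (hsize.trans (mul_le_mul_of_nonneg_right ?_ hApos.le))
    have hrp : κ ^ (1 + 1 / (k : ℝ)) = κ * κ ^ (1 / (k : ℝ)) := by
      rw [Real.rpow_add hκ0, Real.rpow_one]
    have h3b : 3 * b ≤ 2 * 10 ^ 9 * k * κ ^ (1 + 1 / (k : ℝ)) := by
      rw [hrp]
      have h5 : 0 < κ * κ ^ (1 / (k : ℝ)) := by positivity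
      have h6 : 0 ≤ (k : ℝ) * (κ * κ ^ (1 / (k : ℝ))) := by positivity
      linarith
    calc 8 * Real.exp (2 * b + 2 * Real.log K + 2 * D)
        ≤ Real.exp (4 * κ) * Real.exp (2 * b + 2 * Real.log K + 2 * D) :=
          mul_le_mul_of_nonneg_right h8 (Real.exp_pos _).le
      _ = Real.exp (4 * κ + (2 * b + 2 * Real.log K + 2 * D)) := by rw [← Real.exp_add]
      _ ≤ _ := Real.exp_le_exp.2 (by linarith)
  · refine hT.trans ?_
    have e1 : (2 * K) ^ (7000 * k) = Real.exp (7000 * u) := by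
      rw [← hexpκ, ← Real.exp_nat_mul, hu]
      congr 1
      push_cast
      ring
    have e2 : Real.exp (36 * u) ^ 185 = Real.exp (6660 * u) := by
      rw [← Real.exp_nat_mul]
      congr 1
      push_cast
      ring
    rw [e1]
    calc (K * X.card) * (K * X.card) ^ 185 ≤ Real.exp (36 * u) * Real.exp (36 * u) ^ 185 :=
          mul_le_mul hKX (pow_le_pow_left₀ hKX0.le hKX 185) (pow_nonneg hKX0.le _)
            (Real.exp_pos _).le
      _ = Real.exp (36 * u + 6660 * u) := by rw [e2, ← Real.exp_add]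
      _ ≤ _ := Real.exp_le_exp.2 (by linarith)

/-- **Polynomially many translates, in an arbitrary abelian group.** -/
theorem poly_translates {G : Type*} [AddCommGroup G] [DecidableEq G] {K : ℝ}
    {A : Finset G} (hA : A.Nonempty) (hK : ((A + A).card : ℝ) ≤ K * A.card)
    {k : ℕ} (hk : 1 ≤ k) :
    ∃ (d : ℕ) (B : Set (Fin d → ℝ)) (ψ : (Fin d → ℤ) →+ G) (H₀ : AddSubgroup G) (T : Finset G),
      (d : ℝ) ≤ 18000 * k * Real.log (2 * K) ∧ SymmBody B ∧ Finite H₀ ∧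
      (({c : Fin d → ℤ | (fun i => (c i : ℝ)) ∈ B}.ncard * Nat.card H₀ : ℕ) : ℝ) ≤
        Real.exp (2 * 10 ^ 9 * k * (Real.log (2 * K)) ^ (1 + 1 / (k : ℝ))) * A.card ∧
      (T.card : ℝ) ≤ (2 * K) ^ (7000 * k) ∧
      Covers B ψ H₀ T A := by
  classical
  have hApos : (0 : ℝ) < A.card := by exact_mod_cast hA.card_pos
  have hK1 : 1 ≤ K := by
    have h1 : (A.card : ℝ) ≤ (A + A).card := by
      exact_mod_cast Finset.card_le_card_add_right hA
    nlinarith
  obtain ⟨Γ, hΓ⟩ : ∃ Γ : AddSubgroup G, Γ = AddSubgroup.closure (A : Set G) := ⟨_, rfl⟩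
  obtain ⟨A', hA'⟩ := exists_model A Γ (fun a ha => by
    rw [hΓ]; exact AddSubgroup.subset_closure ha)
  have hinj : Function.Injective Γ.subtype := Γ.subtype_injective
  haveI : AddGroup.FG Γ := by
    rw [AddGroup.fg_iff_addSubgroup_fg]
    exact ⟨A, hΓ.symm⟩
  have hA'ne : A'.Nonempty := by
    rw [← hA'] at hA; exact Finset.image_nonempty.1 hA
  have hcard : A'.card = A.card := by
    rw [← hA', Finset.card_image_of_injective _ hinj]
  have hcard2 : (A' + A').card = (A + A).card := by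
    rw [← hA', ← Finset.image_add, Finset.card_image_of_injective _ hinj]
  have hK' : ((A' + A').card : ℝ) ≤ K * A'.card := by rw [hcard2, hcard]; exact hK
  obtain ⟨d, B, ψ, H₀, T, hd, hB, hH₀, hvol, hT, hcov⟩ := poly_fg hA'ne hK' hK1 hk
  refine ⟨d, B, Γ.subtype.comp ψ, H₀.map Γ.subtype, T.image Γ.subtype, hd, hB, ?_, ?_, ?_, ?_⟩
  · have : (H₀.map Γ.subtype : Set G).Finite := by
      rw [AddSubgroup.coe_map]
      exact (Set.toFinite (H₀ : Set Γ)).image _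
    exact this.to_subtype
  · have h1 : Nat.card (H₀.map Γ.subtype) = Nat.card H₀ :=
      Nat.card_congr (H₀.equivMapOfInjective Γ.subtype hinj).toEquiv.symm
    rw [h1, ← hcard]
    exact hvol
  · refine le_trans ?_ hT
    exact_mod_cast Finset.card_image_le
  · intro a ha
    rw [← hA'] at ha
    obtain ⟨a', ha', rfl⟩ := Finset.mem_image.1 ha
    obtain ⟨t, ht, c, hc, h, hh, e⟩ := hcov a' ha'
    refine ⟨Γ.subtype t, Finset.mem_image_of_mem _ ht, c, hc, Γ.subtype h, ⟨h, hh, rfl⟩, ?_⟩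
    rw [e, map_add, map_add]
    rfl

end Pool.Agent.TH513.PT
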